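import Pool.Agent.Helper5.BD.Defs

/-!
# Bounded degeneracy (MP_79ec0d_co), module C4
-/

noncomputable section

open Finset Helper5.CR Classical

namespace Helper5.BD

variable {V E X : Type} [Fintype V] [Fintype E] [Fintype X] {C : CSys V E X} {d : ℕ}

section C4

/-- C4.  Out-degree of `Γ2` is at most `d^2`, and `Flat.f1`. -/
theorem card_G2 (O : Ori C d) (τ : ℝ) (hf : O.Flat τ) :
    (Ori.cnt (fun x => O.G2 x) : ℝ) ≤ τ * (d * d) * Fintype.card X := by
  have h := hf.f1 O.Γ2 (d * d) (fun u v h => h.1) (fun u => by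
    have hsub : univ.filter (fun v => O.Γ2 u v) ⊆
        (univ.filter (fun g => O.lo g = u)).biUnion
          (fun g => (univ.filter (fun f => O.lo f = O.hi g)).image O.hi) := by
      intro v hv
      rw [mem_filter] at hv
      obtain ⟨-, -, w, ⟨g, hg1, hg2⟩, f, hf1, hf2⟩ := hv
      rw [mem_biUnion]
      refine ⟨g, mem_filter.2 ⟨mem_univ _, hg1⟩, mem_image.2 ⟨f, mem_filter.2 ⟨mem_univ _, ?_⟩, hf2⟩⟩
      rw [hf1, hg2]
    refine (card_le_card hsub).trans ((card_biUnion_le_card_mul _ _ d fun g _ => ?_).trans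
      (Nat.mul_le_mul_right _ (O.out u)))
    exact card_image_le.trans (O.out _))
  push_cast at h
  exact h

/-- C4.  Out-degree of `Γ1 p` is at most `d * (d * p)`: given `u`, there are `≤ d` vertices `b` with
`arc u b`; given `b`, the edges `e ∈ A1 p` with `hi e = b` have their low end in the union of the
sets `cm f`, `lo f = b`, `(cm f).card ≤ p` (at most `d` such `f`); `v = lo e`. Then `Flat.f1`. -/
theorem card_G1 (O : Ori C d) (τ : ℝ) (hf : O.Flat τ) (p : ℕ) :
    (Ori.cnt (fun x => O.G1 p x) : ℝ) ≤ τ * (d * (d * p)) * Fintype.card X := by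
  have h := hf.f1 (O.Γ1 p) (d * (d * p)) (fun u v h => h.1) (fun u => by
    have hsub : univ.filter (fun v => O.Γ1 p u v) ⊆
        (univ.filter (fun g => O.lo g = u)).biUnion
          (fun g => (univ.filter (fun f => O.lo f = O.hi g ∧ (O.cm f).card ≤ p)).biUnion
            (fun f => O.cm f)) := by
      intro v hv
      rw [mem_filter] at hv
      obtain ⟨-, -, e, he, hev, g, hg1, hg2⟩ := hv
      obtain ⟨f, hf1, hf2, hf3⟩ := (mem_filter.1 he).2
      rw [mem_biUnion]
      refine ⟨g, mem_filter.2 ⟨mem_univ _, hg1⟩, mem_biUnion.2 ⟨f, mem_filter.2 ⟨mem_univ _, ?_, hf3⟩, ?_⟩⟩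
      · rw [hf1, hg2]
      · rw [← hev]
        exact hf2
    refine (card_le_card hsub).trans ((card_biUnion_le_card_mul _ _ (d * p) fun g _ => ?_).trans
      (Nat.mul_le_mul_right _ (O.out u)))
    refine (card_biUnion_le_card_mul _ _ p fun f hf' => (mem_filter.1 hf').2.2).trans
      (Nat.mul_le_mul_right _ ((card_le_card ?_).trans (O.out (O.hi g))))
    intro f hf'
    exact mem_filter.2 ⟨mem_univ _, (mem_filter.1 hf').2.1⟩)
  push_cast at h
  exact h

end C4

end Helper5.BD
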