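import Pool.Agent.Helper5.BD.GDefs

/-!
# Bounded degeneracy (MP_79ec0d_co), module GP2
-/

noncomputable section

open Finset Helper5.CR Classical Equiv Equiv.Perm

namespace Helper5.BD

variable {V E : Type} [Fintype E] {src tgt : E → V}

section GP2

/-- GP2.  Proof: `Good` only depends on the interior points: `d ∈ (P.route e).tail` with `P.pt d = x`
exists iff `x ∈ ipts P e`; passes are `∑ e, (ipts P e).count x`. -/
theorem good_of_ipts {E' : Type} [Fintype E'] {src' tgt' : E' → V} (P : PreDrawing src tgt)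
    (hG : P.Good) (P' : PreDrawing src' tgt') (κ : E' → E) (hκ : Function.Injective κ)
    (h : ∀ e, (src' e = src (κ e) ∧ tgt' e = tgt (κ e)) ∨
      (src' e = tgt (κ e) ∧ tgt' e = src (κ e)))
    (j : P.X → P'.X) (hj : Function.Injective j)
    (hi : ∀ e, (ipts P' e).Subperm ((ipts P (κ e)).map j)) : P'.Good := by
  have hmem : ∀ e, ∀ d ∈ (P'.route e).tail, ∃ c ∈ (P.route (κ e)).tail, P'.pt d = j (P.pt c) := by
    intro e d hd
    have h1 : P'.pt d ∈ ipts P' e := List.mem_map_of_mem hd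
    have h2 := (hi e).subset h1
    rw [List.mem_map] at h2
    obtain ⟨x, hx, hx'⟩ := h2
    obtain ⟨c, hc, rfl⟩ := List.mem_map.1 hx
    exact ⟨c, hc, hx'.symm⟩
  refine ⟨fun x' => ?_, fun e => ?_, fun e f hef hd => ?_, ?_⟩
  · have hle : P'.passes x' ≤ ∑ e, ((ipts P (κ e)).map j).count x' := by
      unfold PreDrawing.passes
      exact Finset.sum_le_sum fun e _ => (hi e).count_le x'
    refine hle.trans ?_
    by_cases hx : ∃ x, j x = x'
    · obtain ⟨x, rfl⟩ := hx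
      have h1 : ∑ e, ((ipts P (κ e)).map j).count (j x) = ∑ e, (ipts P (κ e)).count x :=
        Finset.sum_congr rfl fun e _ => List.count_map_of_injective _ j hj x
      have h2 : ∑ e, (ipts P (κ e)).count x = ∑ e ∈ univ.image κ, (ipts P e).count x :=
        (Finset.sum_image (f := fun e => (ipts P e).count x) fun a _ b _ hab => hκ hab).symm
      have h3 : ∑ e ∈ univ.image κ, (ipts P e).count x ≤ ∑ e, (ipts P e).count x :=
        Finset.sum_le_sum_of_subset (Finset.subset_univ _)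
      have h4 : ∑ e, (ipts P e).count x = P.passes x := rfl
      rw [h1, h2]
      exact (h3.trans_eq h4).trans (hG.simple x)
    · have h1 : ∀ e, ((ipts P (κ e)).map j).count x' = 0 := by
        intro e
        apply List.count_eq_zero_of_not_mem
        intro hmem'
        obtain ⟨x, -, hx'⟩ := List.mem_map.1 hmem'
        exact hx ⟨x, hx'⟩
      rw [Finset.sum_congr rfl fun e _ => h1 e]
      simp
  · obtain ⟨l, hl1, hl2⟩ := hi e
    have h1 : ((ipts P (κ e)).map j).Nodup := (hG.self (κ e)).map hj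
    exact hl1.nodup_iff.1 (hl2.nodup h1)
  · obtain ⟨d, hd, d', hd', hdd⟩ := hd
    obtain ⟨c, hc, hcd⟩ := hmem e d hd
    obtain ⟨c', hc', hcd'⟩ := hmem f d' hd'
    have hcc : P.pt c = P.pt c' := hj (by rw [← hcd, ← hcd', hdd])
    obtain ⟨a1, a2, a3, a4⟩ := hG.adj (κ e) (κ f) (fun he => hef (hκ he)) ⟨c, hc, c', hc', hcc⟩
    rcases h e with ⟨e1, e2⟩ | ⟨e1, e2⟩ <;> rcases h f with ⟨f1, f2⟩ | ⟨f1, f2⟩ <;>
      rw [e1, e2, f1, f2] <;> tauto
  · intro e f hef d₁ hd₁ d₁' hd₁' d₂ hd₂ d₂' hd₂' h1 h2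
    obtain ⟨c₁, hc₁, hcd₁⟩ := hmem e d₁ hd₁
    obtain ⟨c₁', hc₁', hcd₁'⟩ := hmem f d₁' hd₁'
    obtain ⟨c₂, hc₂, hcd₂⟩ := hmem e d₂ hd₂
    obtain ⟨c₂', hc₂', hcd₂'⟩ := hmem f d₂' hd₂'
    have hcc₁ : P.pt c₁ = P.pt c₁' := hj (by rw [← hcd₁, ← hcd₁', h1])
    have hcc₂ : P.pt c₂ = P.pt c₂' := hj (by rw [← hcd₂, ← hcd₂', h2])
    rw [hcd₁, hcd₂, hG.twice (κ e) (κ f) (fun he => hef (hκ he)) c₁ hc₁ c₁' hc₁' c₂ hc₂ c₂' hc₂' hcc₁ hcc₂]

end GP2

end Helper5.BD
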